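import Pool.Agent.W661.RC.Stm

/-!
# Extraction of a core with an isoperimetric gap
-/

set_option autoImplicit false

namespace Pool.Agent.W98.RC.COR

open Matrix Pool.Agent.W661.RC
open scoped ComplexOrder

theorem tr_add {n : Type} [Fintype n] (a b : Matrix n n ℂ) : tr (a + b) = tr a + tr b := by
  simp [tr, Matrix.trace_add]

theorem tr_sub {n : Type} [Fintype n] (a b : Matrix n n ℂ) : tr (a - b) = tr a - tr b := by
  simp [tr, Matrix.trace_sub]

theorem tr_comm {n : Type} [Fintype n] (a b : Matrix n n ℂ) : tr (a * b) = tr (b * a) := by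
  simp [tr, Matrix.trace_mul_comm a b]

theorem hs_eq {n : Type} [Fintype n] (x : Matrix n n ℂ) : hs x = tr (xᴴ * x) := by
  unfold hs tr
  rw [Finset.sum_comm, Matrix.trace, Complex.re_sum]
  refine Finset.sum_congr rfl fun j _ => ?_
  rw [Matrix.diag_apply, Matrix.mul_apply, Complex.re_sum]
  refine Finset.sum_congr rfl fun i _ => ?_
  rw [Matrix.conjTranspose_apply, Complex.star_def, Complex.conj_mul', ← Complex.ofReal_pow,
    Complex.ofReal_re]

theorem hs_nonneg {n : Type} [Fintype n] (x : Matrix n n ℂ) : 0 ≤ hs x :=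
  Finset.sum_nonneg fun _ _ => Finset.sum_nonneg fun _ _ => sq_nonneg _

theorem hs_mul_le {n : Type} [Fintype n] (x y : Matrix n n ℂ) : hs (x * y) ≤ hs x * hs y := by
  have h : ∀ i j, ‖(x * y) i j‖ ^ 2 ≤ (∑ k, ‖x i k‖ ^ 2) * ∑ k, ‖y k j‖ ^ 2 := by
    intro i j
    rw [Matrix.mul_apply]
    calc ‖∑ k, x i k * y k j‖ ^ 2 ≤ (∑ k, ‖x i k‖ * ‖y k j‖) ^ 2 := by
          apply pow_le_pow_left₀ (norm_nonneg _)
          refine (norm_sum_le _ _).trans (Finset.sum_le_sum fun k _ => ?_)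
          rw [norm_mul]
      _ ≤ _ := Finset.sum_mul_sq_le_sq_mul_sq _ _ _
  unfold hs
  calc ∑ i, ∑ j, ‖(x * y) i j‖ ^ 2
      ≤ ∑ i, ∑ j, (∑ k, ‖x i k‖ ^ 2) * ∑ k, ‖y k j‖ ^ 2 :=
        Finset.sum_le_sum fun i _ => Finset.sum_le_sum fun j _ => h i j
    _ = (∑ i, ∑ k, ‖x i k‖ ^ 2) * ∑ j, ∑ k, ‖y k j‖ ^ 2 := by
        rw [Finset.sum_mul]
        refine Finset.sum_congr rfl fun i _ => ?_
        rw [Finset.mul_sum]
    _ = _ := by
        congr 1
        exact Finset.sum_comm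

theorem hs_pr {n : Type} [Fintype n] {p : Matrix n n ℂ} (h : IsPr p) : hs p = tr p := by
  rw [hs_eq, h.1, h.2]

theorem hs_eq_zero {n : Type} [Fintype n] {x : Matrix n n ℂ} (h : hs x = 0) : x = 0 := by
  unfold hs at h
  rw [Finset.sum_eq_zero_iff_of_nonneg (fun i _ => Finset.sum_nonneg fun j _ => sq_nonneg _)] at h
  ext i j
  have h1 := h i (Finset.mem_univ i)
  rw [Finset.sum_eq_zero_iff_of_nonneg (fun j _ => sq_nonneg _)] at h1
  have h2 := h1 j (Finset.mem_univ j)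
  simpa using h2

theorem one_le_tr {n : Type} [Fintype n] {p : Matrix n n ℂ} (h : IsPr p) (h0 : p ≠ 0) :
    1 ≤ tr p := by
  have h1 := hs_mul_le p p
  rw [h.2] at h1
  have h2 : 0 < hs p := by
    rcases (hs_nonneg p).lt_or_eq with h2 | h2
    · exact h2
    · exact absurd (hs_eq_zero h2.symm) h0
  rw [← hs_pr h]
  by_contra hc
  push Not at hc
  nlinarith

/-- Energy of a projection. -/
theorem hs_com {d : ℕ} {u p : Mt d} (hu : uᴴ * u = 1) (hp : IsPr p) :
    hs (u * p - p * u) = 2 * (tr p - tr (p * uᴴ * p * u)) := by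
  have hu' : u * uᴴ = 1 := mul_eq_one_comm.1 hu
  have e1 : (u * p - p * u)ᴴ * (u * p - p * u) =
      p * (uᴴ * u) * p - p * uᴴ * p * u - uᴴ * p * u * p + uᴴ * (p * p) * u := by
    rw [Matrix.conjTranspose_sub, Matrix.conjTranspose_mul, Matrix.conjTranspose_mul, hp.1]
    noncomm_ring
  rw [hs_eq, e1, hu, Matrix.mul_one, hp.2, tr_add, tr_sub, tr_sub]
  have e2 : tr (uᴴ * p * u * p) = tr (p * uᴴ * p * u) := by
    rw [tr_comm]
    congr 1
    noncomm_ring
  have e3 : tr (uᴴ * p * u) = tr p := by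
    rw [tr_comm, ← Matrix.mul_assoc, hu', Matrix.one_mul]
  rw [e2, e3]
  ring

theorem beta_nonneg {d : ℕ} {u p r : Mt d} (hp : IsPr p) (hr : IsPr r) :
    0 ≤ tr (p * uᴴ * r * u) := by
  have e : (r * u * p)ᴴ * (r * u * p) = p * uᴴ * (r * r) * u * p := by
    rw [Matrix.conjTranspose_mul, Matrix.conjTranspose_mul, hp.1, hr.1]
    noncomm_ring
  have h := hs_nonneg (r * u * p)
  rw [hs_eq, e, hr.2, tr_comm] at h
  have e2 : p * (p * uᴴ * r * u) = (p * p) * uᴴ * r * u := by noncomm_ring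
  rw [e2, hp.2] at h
  exact h

theorem isPr_compl {d : ℕ} {p : Mt d} (hp : IsPr p) : IsPr (1 - p) := by
  refine ⟨by rw [Matrix.conjTranspose_sub, Matrix.conjTranspose_one, hp.1], ?_⟩
  have : (1 - p) * (1 - p) = 1 - p - p + p * p := by noncomm_ring
  rw [this, hp.2]
  abel

theorem beta_le {d : ℕ} {u p r : Mt d} (hu : uᴴ * u = 1) (hp : IsPr p) (hr : IsPr r) :
    tr (p * uᴴ * r * u) ≤ tr r := by
  have hu' : u * uᴴ = 1 := mul_eq_one_comm.1 hu
  have h := beta_nonneg (u := u) (isPr_compl hp) hr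
  have e : (1 - p) * uᴴ * r * u = uᴴ * r * u - p * uᴴ * r * u := by noncomm_ring
  have e3 : tr (uᴴ * r * u) = tr r := by
    rw [tr_comm, ← Matrix.mul_assoc, hu', Matrix.one_mul]
  rw [e, tr_sub, e3] at h
  linarith

theorem beta_le' {d : ℕ} {u p r : Mt d} (hu : uᴴ * u = 1) (hp : IsPr p) (hr : IsPr r) :
    tr (p * uᴴ * r * u) ≤ tr p := by
  have h := beta_nonneg (u := u) hp (isPr_compl hr)
  have e : p * uᴴ * (1 - r) * u = p * (uᴴ * u) - p * uᴴ * r * u := by noncomm_ring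
  rw [e, hu, Matrix.mul_one, tr_sub] at h
  linarith

theorem en_pr {d k : ℕ} {u : Fin k → Mt d} (hu : ∀ s, (u s)ᴴ * u s = 1) {p : Mt d} (hp : IsPr p) :
    en u p = ∑ s, 2 * (tr p - tr (p * (u s)ᴴ * p * u s)) :=
  Finset.sum_congr rfl fun s _ => hs_com (hu s) hp

theorem en_nonneg {d k : ℕ} (u : Fin k → Mt d) (x : Mt d) : 0 ≤ en u x :=
  Finset.sum_nonneg fun _ _ => hs_nonneg _

theorem isPr_sub {d : ℕ} {q z : Mt d} (hq : IsPr q) (hz : IsPr z) (h : q * z = z) :
    IsPr (q - z) := by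
  have h' : z * q = z := by
    have := congrArg Matrix.conjTranspose h
    rwa [Matrix.conjTranspose_mul, hq.1, hz.1] at this
  refine ⟨by rw [Matrix.conjTranspose_sub, hq.1, hz.1], ?_⟩
  have : (q - z) * (q - z) = q * q - q * z - z * q + z * z := by noncomm_ring
  rw [this, hq.2, hz.2, h, h']
  abel

theorem isPr_add {d : ℕ} {y z : Mt d} (hy : IsPr y) (hz : IsPr z) (h : y * z = 0) :
    IsPr (y + z) := by
  have h' : z * y = 0 := by
    have := congrArg Matrix.conjTranspose h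
    rwa [Matrix.conjTranspose_mul, hy.1, hz.1, Matrix.conjTranspose_zero] at this
  refine ⟨by rw [Matrix.conjTranspose_add, hy.1, hz.1], ?_⟩
  have : (y + z) * (y + z) = y * y + y * z + z * y + z * z := by noncomm_ring
  rw [this, hy.2, hz.2, h, h']
  abel

theorem en_sub_le {d k : ℕ} {u : Fin k → Mt d} (hu : ∀ s, (u s)ᴴ * u s = 1) {q z : Mt d}
    (hq : IsPr q) (hz : IsPr z) (h : q * z = z) : en u (q - z) ≤ en u q + en u z := by
  rw [en_pr hu (isPr_sub hq hz h), en_pr hu hq, en_pr hu hz, ← Finset.sum_add_distrib]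
  refine Finset.sum_le_sum fun s _ => ?_
  have e : (q - z) * (u s)ᴴ * (q - z) * u s = q * (u s)ᴴ * q * u s - q * (u s)ᴴ * z * u s -
      z * (u s)ᴴ * q * u s + z * (u s)ᴴ * z * u s := by noncomm_ring
  rw [e, tr_add, tr_sub, tr_sub, tr_sub]
  have h1 := beta_le (hu s) hq hz
  have h2 := beta_le' (hu s) hz hq
  linarith

theorem en_add_le {d k : ℕ} {u : Fin k → Mt d} (hu : ∀ s, (u s)ᴴ * u s = 1) {y z : Mt d}
    (hy : IsPr y) (hz : IsPr z) (h : y * z = 0) : en u (y + z) ≤ en u y + en u z := by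
  rw [en_pr hu (isPr_add hy hz h), en_pr hu hy, en_pr hu hz, ← Finset.sum_add_distrib]
  refine Finset.sum_le_sum fun s _ => ?_
  have e : (y + z) * (u s)ᴴ * (y + z) * u s = y * (u s)ᴴ * y * u s + y * (u s)ᴴ * z * u s +
      z * (u s)ᴴ * y * u s + z * (u s)ᴴ * z * u s := by noncomm_ring
  rw [e, tr_add, tr_add, tr_add, tr_add]
  have h1 := beta_nonneg (u := u s) hy hz
  have h2 := beta_nonneg (u := u s) hz hy
  linarith

theorem main : CorP := by
  intro d k u e1 ζ1 q hu hq hq0 he1 hζ0 hζ1 hyp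
  let S : Set ℝ := {a | ∃ z : Mt d, IsPr z ∧ q * z = z ∧ en u z ≤ e1 * tr z ∧ tr z ≤ ζ1 * tr q ∧
    a = tr z}
  have h0 : IsPr (0 : Mt d) := ⟨by simp, by simp⟩
  have htr0 : tr (0 : Mt d) = 0 := by simp [tr]
  have hen0 : en u (0 : Mt d) = 0 := by simp [en, hs]
  have hS0 : S.Nonempty := by
    refine ⟨0, 0, h0, by simp, ?_, ?_, htr0.symm⟩
    · rw [hen0, htr0, mul_zero]
    · rw [htr0]; positivity
  have hSb : BddAbove S := by
    refine ⟨ζ1 * tr q, ?_⟩
    rintro a ⟨z, -, -, -, h, rfl⟩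
    exact h
  obtain ⟨a, ⟨z0, hz0, hqz0, hen, htr, rfl⟩, ha⟩ := exists_lt_of_lt_csSup hS0
    (show sSup S - 1 < sSup S by linarith)
  have hz0q : z0 * q = z0 := by
    have := congrArg Matrix.conjTranspose hqz0
    rwa [Matrix.conjTranspose_mul, hq.1, hz0.1] at this
  have hz0n : 0 ≤ tr z0 := by rw [← hs_pr hz0]; exact hs_nonneg _
  refine ⟨q - z0, isPr_sub hq hz0 hqz0, ?_, ?_, ?_, ?_⟩
  · rw [Matrix.mul_sub, hq.2, hqz0]
  · rw [sub_sub_cancel]; exact htr
  · have h1 := en_sub_le hu hq hz0 hqz0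
    have h2 : e1 * tr z0 ≤ e1 * (ζ1 * tr q) := mul_le_mul_of_nonneg_left htr he1.le
    nlinarith
  · intro z hz hqz hzt
    by_contra hc
    push Not at hc
    have hz0z : z0 * z = 0 := by
      rw [← hqz, ← Matrix.mul_assoc, Matrix.mul_sub, hz0q, hz0.2, sub_self, Matrix.zero_mul]
    have hqz' : q * z = z := by
      have h1 : q * ((q - z0) * z) = (q - z0) * z := by
        rw [← Matrix.mul_assoc, Matrix.mul_sub, hq.2, hqz0]
      rwa [hqz] at h1
    have hP := isPr_add hz0 hz hz0z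
    have hqP : q * (z0 + z) = z0 + z := by rw [Matrix.mul_add, hqz0, hqz']
    have henP : en u (z0 + z) ≤ e1 * tr (z0 + z) := by
      have := en_add_le hu hz0 hz hz0z
      rw [tr_add]
      nlinarith
    rw [tr_sub] at hzt
    have htP : tr (z0 + z) ≤ 2 / 3 * tr q := by
      rw [tr_add]
      nlinarith
    have htP' := hyp _ hP hqP henP htP
    have hmem : tr (z0 + z) ∈ S := ⟨z0 + z, hP, hqP, henP, htP', rfl⟩
    have hle := le_csSup hSb hmem
    rw [tr_add] at hle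
    by_cases hzz : z = 0
    · subst hzz
      rw [htr0, mul_zero] at hc
      exact absurd hc (not_lt.2 (en_nonneg u 0))
    · have := one_le_tr hz hzz
      linarith

end Pool.Agent.W98.RC.COR
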